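import Pool.Agent.T9h97.CPZ.Main

set_option autoImplicit false

/-!
# MP_3f1d68_pr: the critical values of canopy tree × `ℤ` and canopy tree × `ℕ` are equal

The definitions of the statement are in `Pool.Agent.Helper98K9.CP.Perc`:

* `IsCanopy d C l`: `C` is a canopy tree of degree `d` with the level function `l`;
* `line`, `halfLine`: the graphs `ℤ` and `ℕ`; `C.boxProd H` is the Cartesian product (Mathlib);
* `perc G p`: Bernoulli bond percolation on `G`, a measure on `G.edgeSet → Bool`;
* `InfCl G ω x`: the open cluster of `x` is infinite; `theta G x p`: the probability of it;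
* `pc G x`: the infimum of the `p ≤ 1` with `0 < theta G x p`.

`Pool.Agent.Helper98K9.CP.isCanopy_canopy` is a concrete canopy tree of every degree `d ≥ 3`.

Idea.  On `C × ℤ` there are at most two infinite clusters (Burton-Keane), so if `C × ℤ`
percolates, two vertices of one ray have a connection probability bounded below by a constant
which does not depend on their distance `n`; the finite criterion of the starting library only
needs more than `(d - 1) ^ (-n / 2)`, and it gives percolation on `C × ℕ` at the same parameter,
and at a smaller one.
-/

namespace Pool.Agent.Results.MP_3f1d68_pr.SameCriticalValue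

open Pool.Agent.Helper98K9.CP MeasureTheory
open scoped NNReal

/-- For every `d ≥ 3`, every canopy tree `C` of degree `d` and all vertices `x` of `C × ℤ` and
`y` of `C × ℕ`: the critical values of Bernoulli bond percolation on `C × ℤ` and on `C × ℕ` are
equal (and less than `1`); for every parameter `p`, `x` is in an infinite cluster of `C × ℤ` with
positive probability if and only if `y` is in an infinite cluster of `C × ℕ` with positive
probability; and at the critical value there is almost surely no infinite cluster in `C × ℤ`. -/
theorem result (d : ℕ) (hd : 3 ≤ d) (V : Type) (C : SimpleGraph V) (l : V → ℕ)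
    (hC : IsCanopy d C l) (x : V × ℤ) (y : V × ℕ) :
    pc (C.boxProd line) x = pc (C.boxProd halfLine) y ∧
      pc (C.boxProd line) x < 1 ∧
      (∀ p : ℝ≥0, 0 < theta (C.boxProd line) x p ↔ 0 < theta (C.boxProd halfLine) y p) ∧
      ∀ᵐ ω ∂(perc (C.boxProd line) (pc (C.boxProd line) x)),
        ∀ z, ¬ InfCl (C.boxProd line) ω z := by
  obtain ⟨h1, h2, h3⟩ := Pool.Agent.T9h97.CPZ.final d hd V C l hC x y
  exact ⟨h1, h1 ▸ (canopy_final d hd V C l hC y).1, h2, h3⟩

end Pool.Agent.Results.MP_3f1d68_pr.SameCriticalValue
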